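import Pool.Agent.CoHopf.Ins

/-!
# MP_e6a096_al, Q1: co-hopficity does not pass up to finite Green index extensions

The counterexample is a pair of groups `T < S` of index two.
-/

set_option autoImplicit false

namespace Pool.Agent.Results.MP_e6a096_al.IndexTwoGroups

section
variable {S : Type*} [Semigroup S]

/-- `s T¹` -/
def rightSet (T : Subsemigroup S) (s : S) : Set S := {x | x = s ∨ ∃ t ∈ T, x = s * t}

/-- `T¹ s` -/
def leftSet (T : Subsemigroup S) (s : S) : Set S := {x | x = s ∨ ∃ t ∈ T, x = t * s}

/-- The relative Green relation `H^T`: `s T¹ = t T¹` and `T¹ s = T¹ t`. -/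
def HRel (T : Subsemigroup S) (s t : S) : Prop :=
  rightSet T s = rightSet T t ∧ leftSet T s = leftSet T t

/-- The `H^T`-class of `s`. -/
def HClass (T : Subsemigroup S) (s : S) : Set S := {x | HRel T x s}

/-- Only finitely many `H^T`-classes are contained in the complement of `T`. -/
def FiniteGreenIndex (T : Subsemigroup S) : Prop :=
  {C : Set S | ∃ s : S, s ∉ T ∧ C = HClass T s}.Finite

/-- The right action of `T¹` (`WithOne T`) on `S`. -/
def act {T : Subsemigroup S} (s : S) (t : WithOne T) : S :=
  WithOne.recOneCoe (motive := fun _ => S) s (fun x : T => s * x) t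

@[simp] theorem act_one {T : Subsemigroup S} (s : S) : act s (1 : WithOne T) = s := rfl
@[simp] theorem act_coe {T : Subsemigroup S} (s : S) (t : T) : act s (t : WithOne T) = s * t := rfl

theorem act_mul {T : Subsemigroup S} (s : S) (a b : WithOne T) : act s (a * b) = act (act s a) b := by
  induction a using WithOne.recOneCoe with
  | one => simp
  | coe a =>
    induction b using WithOne.recOneCoe with
    | one => simp
    | coe b =>
      rw [← WithOne.coe_mul, act_coe, act_coe, act_coe, mul_assoc]
      rfl

/-- `Stab(H) = {t ∈ T¹ : H t = H}` for the `H^T`-class `H` of `u`. -/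
def Stab (T : Subsemigroup S) (u : S) : Submonoid (WithOne T) where
  carrier := {t | (fun h : S => act h t) '' HClass T u = HClass T u}
  one_mem' := by simp
  mul_mem' := by
    intro a b ha hb
    have ha' : (fun h : S => act h a) '' HClass T u = HClass T u := ha
    have hb' : (fun h : S => act h b) '' HClass T u = HClass T u := hb
    change (fun h : S => act h (a * b)) '' HClass T u = HClass T u
    have : (fun h : S => act h (a * b)) = (fun h : S => act h b) ∘ fun h : S => act h a := by
      funext h
      exact act_mul h a b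
    rw [this, Set.image_comp, ha', hb']

/-- The congruence `σ` on `Stab(H)`: `a σ b` when `h a = h b` for all `h ∈ H`. -/
def sigma (T : Subsemigroup S) (u : S) : Con (Stab T u) where
  r a b := ∀ h ∈ HClass T u, act h a.1 = act h b.1
  iseqv := ⟨fun _ _ _ => rfl, fun h x hx => (h x hx).symm, fun h h' x hx => (h x hx).trans (h' x hx)⟩
  mul' := by
    intro a b c d hab hcd h hh
    change act h (a.1 * c.1) = act h (b.1 * d.1)
    rw [act_mul, act_mul, hab h hh]
    apply hcd
    have hb : (fun h : S => act h b.1) '' HClass T u = HClass T u := b.2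
    rw [← hb]
    exact ⟨h, hh, rfl⟩

/-- The `T`-relative Schützenberger group `Γ(H) = Stab(H)/σ` of the `H^T`-class `H` of `u`. -/
abbrev SchutzGroup (T : Subsemigroup S) (u : S) : Type _ := (sigma T u).Quotient

end

/-- Co-hopfian: every injective endomorphism is surjective (`→ₙ*`: multiplicative maps; between
groups these are the group homomorphisms). -/
def CoHopfian (M : Type*) [Mul M] : Prop :=
  ∀ f : M →ₙ* M, Function.Injective f → Function.Surjective f

theorem CoHopfian.congr {M N : Type*} [Mul M] [Mul N] (e : M ≃* N) (h : CoHopfian M) :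
    CoHopfian N := by
  intro f hf
  have h1 := h ((e.symm.toMulHom.comp f).comp e.toMulHom)
    (e.symm.injective.comp (hf.comp e.injective))
  intro y
  obtain ⟨x, hx⟩ := h1 (e.symm y)
  exact ⟨e x, e.symm.injective hx⟩

open Pool.Agent.CoHopf Pool.Agent.CoHopf.Ins

/-- the index two subgroup as a subsemigroup -/
noncomputable abbrev TS : Subsemigroup GG := TT.toSubmonoid.toSubsemigroup

theorem mem_TS (x : GG) : x ∈ TS ↔ x ∈ TT := Iff.rfl

theorem rightSet_eq {u : GG} (hu : u ∉ TS) : rightSet TS u = {x | x ∉ TT} := by
  ext x
  constructor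
  · rintro (h | ⟨t, ht, h⟩)
    · rw [h]; exact hu
    · rw [h]; exact mul_not_mem hu ht
  · intro hx
    exact Or.inr ⟨u⁻¹ * x, inv_mul_mem hu hx, by simp⟩

theorem mul_not_mem' {g t : GG} (hg : g ∉ TT) (ht : t ∈ TT) : t * g ∉ TT := by
  intro h
  apply hg
  have := TT.mul_mem (TT.inv_mem ht) h
  simpa using this

theorem leftSet_eq {u : GG} (hu : u ∉ TS) : leftSet TS u = {x | x ∉ TT} := by
  ext x
  constructor
  · rintro (h | ⟨t, ht, h⟩)
    · rw [h]; exact hu
    · rw [h]; exact mul_not_mem' hu ht
  · intro hx
    exact Or.inr ⟨x * u⁻¹, mul_inv_mem hx hu, by simp⟩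

theorem HClass_eq {u : GG} (hu : u ∉ TS) : HClass TS u = {x | x ∉ TT} := by
  ext x
  constructor
  · intro hx
    have h1 : x ∈ rightSet TS u := by
      rw [← hx.1]
      exact Or.inl rfl
    rw [rightSet_eq hu] at h1
    exact h1
  · intro hx
    exact ⟨by rw [rightSet_eq hx, rightSet_eq hu], by rw [leftSet_eq hx, leftSet_eq hu]⟩

theorem act_group (s : GG) (t : WithOne TS) : act s t = s * act 1 t := by
  induction t using WithOne.recOneCoe with
  | one => simp
  | coe t => simp

theorem act_one_mem (t : WithOne TS) : act (1 : GG) t ∈ TT := by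
  induction t using WithOne.recOneCoe with
  | one => rw [act_one]; exact TT.one_mem
  | coe t => rw [act_coe, one_mul]; exact t.2

/-- the value of an element of the stabiliser -/
noncomputable def val (u : GG) : Stab TS u →* TT where
  toFun t := ⟨act (1 : GG) t.1, act_one_mem _⟩
  map_one' := rfl
  map_mul' a b := by
    apply Subtype.ext
    change act (1 : GG) (a.1 * b.1) = act 1 a.1 * act 1 b.1
    rw [act_mul, act_group (act 1 a.1)]

theorem sigma_iff {u : GG} (_hu : u ∉ TS) (a b : Stab TS u) :
    sigma TS u a b ↔ val u a = val u b := by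
  constructor
  · intro h
    have h1 : act u a.1 = act u b.1 := h u ⟨rfl, rfl⟩
    rw [act_group u, act_group u (b.1)] at h1
    exact Subtype.ext (mul_left_cancel h1)
  · intro h x _
    have h1 : act (1 : GG) a.1 = act (1 : GG) b.1 := congrArg Subtype.val h
    rw [act_group x, act_group x (b.1), h1]

theorem val_surjective {u : GG} (hu : u ∉ TS) : Function.Surjective (val u) := by
  intro t
  let t' : TS := ⟨t.1, t.2⟩
  have hst : (t' : WithOne TS) ∈ Stab TS u := by
    change (fun h : GG => act h (t' : WithOne TS)) '' HClass TS u = HClass TS u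
    rw [HClass_eq hu]
    ext x
    constructor
    · rintro ⟨h, hh, rfl⟩
      exact mul_not_mem hh t.2
    · intro hx
      exact ⟨x * t.1⁻¹, mul_not_mem hx (TT.inv_mem t.2), by simp [t']⟩
  refine ⟨⟨t', hst⟩, ?_⟩
  apply Subtype.ext
  change (1 : GG) * t.1 = t.1
  rw [one_mul]

/-- the Schützenberger group is the subgroup -/
noncomputable def schutzEquiv {u : GG} (hu : u ∉ TS) : SchutzGroup TS u ≃* TT :=
  MulEquiv.ofBijective ((sigma TS u).lift (val u) (fun a b h => (sigma_iff hu a b).1 h)) (by
    constructor
    · intro x y hxy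
      induction x using Con.induction_on with
      | _ a =>
        induction y using Con.induction_on with
        | _ b =>
          exact ((sigma TS u).eq).2 ((sigma_iff hu a b).2 hxy)
    · intro t
      obtain ⟨a, ha⟩ := val_surjective hu t
      exact ⟨(a : (sigma TS u).Quotient), ha⟩)

theorem cohopf_TT : CoHopfian TT := by
  intro f hf
  exact cohopf (MonoidHom.mk' (fun x => f x) (fun a b => map_mul f a b)) hf

theorem index_TT : TT.index = 2 := by
  have h1 : chi.range = ⊤ := by
    rw [MonoidHom.range_eq_top]
    intro z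
    rcases Int.units_eq_one_or z with h | h
    · exact ⟨1, by rw [map_one, h]⟩
    · refine ⟨(tau, 1), ?_⟩
      rw [chi_apply, map_one, mul_one, h]
      exact fact9
  unfold TT
  rw [Subgroup.index_ker, h1]
  simp

theorem fg_TT : TT.FG := by
  refine ⟨gens, le_antisymm ((Subgroup.closure_le _).2 fun x hx => gens_mem_TT x hx) ?_⟩
  intro x hx
  have h1 : x ∈ TT.toSubmonoid.toSubsemigroup := hx
  rw [← closure_gens] at h1
  have h2 : Subsemigroup.closure (gens : Set GG) ≤
      (Subgroup.closure (gens : Set GG)).toSubmonoid.toSubsemigroup := by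
    rw [Subsemigroup.closure_le]
    intro y hy
    exact Subgroup.subset_closure hy
  exact h2 h1

/-- **Q1 is false, already for groups.** There are a group `S` and a subgroup `T` of index two such
that `T` is finitely generated (also as a semigroup) and of finite Green index in `S`, `T` is
co-hopfian, for every `H^T`-class in the complement of `T` the relative Schützenberger group is
co-hopfian, but `S` is not co-hopfian. -/
theorem result :
    ∃ (S : Type) (_ : Group S) (T : Subgroup S),
      T.index = 2 ∧ T.FG ∧
      (∃ A : Finset S, Subsemigroup.closure (A : Set S) = T.toSubmonoid.toSubsemigroup) ∧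
      FiniteGreenIndex T.toSubmonoid.toSubsemigroup ∧
      CoHopfian T ∧
      (∀ u : S, u ∉ T → CoHopfian (SchutzGroup T.toSubmonoid.toSubsemigroup u)) ∧
      ¬ CoHopfian S := by
  refine ⟨GG, inferInstance, TT, index_TT, fg_TT, ⟨gens, closure_gens⟩, ?_, cohopf_TT, ?_, ?_⟩
  · refine (Set.finite_singleton {x : GG | x ∉ TT}).subset ?_
    rintro C ⟨s, hs, rfl⟩
    exact HClass_eq hs
  · intro u hu
    exact cohopf_TT.congr (schutzEquiv (u := u) hu).symm
  · intro h
    let κ : GG →* GG := MonoidHom.prodMap (MonoidHom.id S3) B.kap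
    have hκ : Function.Injective κ := by
      intro x y hxy
      have h1 := congrArg Prod.fst hxy
      have h2 := congrArg Prod.snd hxy
      exact Prod.ext h1 (B.kap_injective h2)
    obtain ⟨y, hy⟩ := h κ.toMulHom hκ (1, B.tt 1)
    have h4 := congrArg Prod.snd hy
    exact B.kap_not_surj y.2 h4

end Pool.Agent.Results.MP_e6a096_al.IndexTwoGroups
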